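import Pool.Agent.Helper86.SJ.Defs

/-! SJ, package CEN (MP_66bcf1_co). -/

open Finset

namespace SJ

namespace H67

theorem mem_supp {n : ℕ} {v : Fin n → ℤ} {i : Fin n} : i ∈ supp v ↔ v i ≠ 0 := by
  unfold supp
  rw [mem_filter]
  exact ⟨fun h => h.2, fun h => ⟨mem_univ _, h⟩⟩

theorem mem_fib {n : ℕ} {F : Finset (Fin n → ℤ)} {S : Finset (Fin n)} {v : Fin n → ℤ} :
    v ∈ fib F S ↔ v ∈ F ∧ supp v = S := by
  classical
  unfold fib
  rw [mem_filter]

theorem sgn {n k : ℕ} {v : Fin n → ℤ} (hv : IsV n k v) {i : Fin n} (hi : v i ≠ 0) :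
    v i = 1 ∨ v i = -1 := by
  rcases hv.1 i with h | h | h
  · exact Or.inr h
  · exact absurd h hi
  · exact Or.inl h

theorem two_of_not_EX {n k : ℕ} {F : Finset (Fin n → ℤ)} {S : Finset (Fin n)} (hS : #S = k)
    (h : S ∉ EX k F) : 2 ≤ #(fib F S) := by
  classical
  by_contra hc
  apply h
  unfold EX
  refine mem_union_right _ ?_
  unfold LL
  rw [mem_filter]
  exact ⟨mem_powersetCard.mpr ⟨subset_univ _, hS⟩, by omega⟩

end H67

open H67 in
theorem cen : CENStm := by
  classical
  intro n k F hk hF T V v₁ hv1V hv1T hV hEX hT1 hT2 hv1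
  refine ⟨?_, ?_⟩
  · intro S hS hST
    obtain ⟨t, htS, htT⟩ := Finset.not_disjoint_iff.mp hST
    -- no arc into a coordinate of difference
    have noarc : ∀ v ∈ fib F S, ∀ v' ∈ fib F S, ∀ f, v f ≠ v' f → ∀ u ∈ S, ¬ Arc F u f := by
      intro v hv v' hv' f hf u hu hA
      obtain ⟨-, -, -, c, -, hc⟩ := hA
      obtain ⟨hvF, hvS⟩ := mem_fib.mp hv
      obtain ⟨hvF', hvS'⟩ := mem_fib.mp hv'
      have hfS : f ∈ S := by
        by_contra hfS
        have h1 : v f = 0 := by
          by_contra h; exact hfS (hvS ▸ mem_supp.mpr h)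
        have h2 : v' f = 0 := by
          by_contra h; exact hfS (hvS' ▸ mem_supp.mpr h)
        exact hf (h1.trans h2.symm)
      have e1 := hc v hvF (mem_supp.mp (hvS.symm ▸ hu)) (mem_supp.mp (hvS.symm ▸ hfS))
      have e2 := hc v' hvF' (mem_supp.mp (hvS'.symm ▸ hu)) (mem_supp.mp (hvS'.symm ▸ hfS))
      exact hf (e1.trans e2.symm)
    have inS : ∀ v ∈ fib F S, ∀ v' ∈ fib F S, ∀ f, v f ≠ v' f → f ∈ S := by
      intro v hv v' hv' f hf
      obtain ⟨-, hvS⟩ := mem_fib.mp hv
      obtain ⟨-, hvS'⟩ := mem_fib.mp hv'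
      by_contra hfS
      have h1 : v f = 0 := by
        by_contra h; exact hfS (hvS ▸ mem_supp.mpr h)
      have h2 : v' f = 0 := by
        by_contra h; exact hfS (hvS' ▸ mem_supp.mpr h)
      exact hf (h1.trans h2.symm)
    have inT : ∀ v ∈ fib F S, ∀ v' ∈ fib F S, ∀ f, v f ≠ v' f → f ∈ T := by
      intro v hv v' hv' f hf
      by_contra hfT
      exact noarc v hv v' hv' f hf t htS (hT1 t htT f hfT)
    by_cases hall : ∀ v ∈ fib F S, ∀ v' ∈ fib F S, v = v'
    · exact (Finset.card_le_one.mpr hall).trans one_le_two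
    · push Not at hall
      obtain ⟨v, hv, v', hv', hne⟩ := hall
      obtain ⟨f, hf⟩ := Function.ne_iff.mp hne
      have hfT := inT v hv v' hv' f hf
      have hfS := inS v hv v' hv' f hf
      have agree : ∀ w ∈ fib F S, ∀ w' ∈ fib F S, ∀ g, g ≠ f → w g = w' g := by
        intro w hw w' hw' g hg
        by_contra hwg
        have hgT := inT w hw w' hw' g hwg
        have hgS := inS w hw w' hw' g hwg
        rcases hT2 f hfT g hgT hg.symm with h | h
        · exact noarc w hw w' hw' g hwg f hfS h
        · exact noarc v hv v' hv' f hf g hgS h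
      have hcard : #(fib F S) ≤ #({1, -1} : Finset ℤ) := by
        refine Finset.card_le_card_of_injOn (fun w => w f) ?_ ?_
        · intro w hw
          obtain ⟨hwF, hwS⟩ := mem_fib.mp hw
          have hwf : w f ≠ 0 := mem_supp.mp (hwS.symm ▸ hfS)
          rcases sgn (hF.1 w hwF) hwf with h | h
          · simp [h]
          · simp [h]
        · intro w hw w' hw' h
          funext g
          by_cases hg : g = f
          · rw [hg]; exact h
          · exact agree w hw w' hw' g hg
      exact hcard.trans (by decide)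
  · -- the sign vector
    have hex : ∀ y : Fin n, ∃ c : ℤ, (c = 1 ∨ c = -1) ∧
        (y ∉ T → y ≠ v₁ → ∀ v ∈ F, v v₁ ≠ 0 → v y ≠ 0 → v y = c) := by
      intro y
      by_cases hy : y ∉ T ∧ y ≠ v₁
      · obtain ⟨-, -, -, c, hc, h⟩ := hv1 y hy.1 hy.2
        exact ⟨c, hc, fun _ _ => h⟩
      · exact ⟨1, Or.inl rfl, fun h1 h2 => absurd ⟨h1, h2⟩ hy⟩
    choose c hc hcF using hex
    refine ⟨c, hc, fun v hv hvT => ?_⟩
    have hnT : ∀ y, v y ≠ 0 → y ∉ T := fun y hy hyT =>
      Finset.disjoint_left.mp hvT (mem_supp.mpr hy) hyT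
    by_cases h1 : v v₁ ≠ 0
    · refine (Finset.card_le_card (t := {v₁}) ?_).trans (by simp)
      intro y hy
      rw [mem_filter, mem_supp] at hy
      rw [mem_singleton]
      by_contra hyv
      exact hy.2 (hcF y (hnT y hy.1) hyv v hv h1 hy.1)
    · have h1' : v v₁ = 0 := not_not.mp h1
      by_contra hcard
      rw [not_le, Finset.one_lt_card] at hcard
      obtain ⟨y, hy, z, hz, hyz⟩ := hcard
      rw [mem_filter, mem_supp] at hy hz
      have hy1 : y ≠ v₁ := fun h => hy.1 (h ▸ h1')
      have hz1 : z ≠ v₁ := fun h => hz.1 (h ▸ h1')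
      -- the set `R`
      have hR : k - 3 ≤ #(V \ (supp v ∪ {v₁})) := by
        have e1 := Finset.le_card_sdiff (supp v ∪ {v₁}) V
        have e2 := Finset.card_union_le (supp v) {v₁}
        rw [card_singleton, (hF.1 v hv).2] at e2
        omega
      obtain ⟨R, hRsub, hRc⟩ := Finset.exists_subset_card_eq hR
      have hRn : ∀ i ∈ R, v i = 0 ∧ i ≠ v₁ := by
        intro i hi
        have := (mem_sdiff.mp (hRsub hi)).2
        rw [mem_union, mem_singleton, mem_supp] at this
        push Not at this
        exact this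
      have hyR : y ∉ R := fun h => hy.1 (hRn y h).1
      have hzR : z ∉ R := fun h => hz.1 (hRn z h).1
      have h1R : v₁ ∉ R := fun h => (hRn v₁ h).2 rfl
      set S : Finset (Fin n) := insert v₁ (insert y (insert z R)) with hS
      have hSc : #S = k := by
        rw [hS, card_insert_of_notMem, card_insert_of_notMem, card_insert_of_notMem hzR, hRc]
        · omega
        · rw [mem_insert]; push Not; exact ⟨hyz, hyR⟩
        · rw [mem_insert, mem_insert]; push Not; exact ⟨hy1.symm, hz1.symm, h1R⟩
      have hS1 : v₁ ∈ S := mem_insert_self _ _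
      have hSy : y ∈ S := mem_insert_of_mem (mem_insert_self _ _)
      have hSz : z ∈ S := mem_insert_of_mem (mem_insert_of_mem (mem_insert_self _ _))
      have hSE : S ∉ EX k F := fun h => Finset.disjoint_left.mp (hEX S h) hS1 hv1V
      have h2 := two_of_not_EX hSc hSE
      obtain ⟨w, hw⟩ := Finset.card_pos.mp (lt_of_lt_of_le two_pos h2)
      obtain ⟨hwF, hwS⟩ := mem_fib.mp hw
      have hw1 : w v₁ ≠ 0 := mem_supp.mp (hwS.symm ▸ hS1)
      have hwy0 : w y ≠ 0 := mem_supp.mp (hwS.symm ▸ hSy)
      have hwz0 : w z ≠ 0 := mem_supp.mp (hwS.symm ▸ hSz)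
      have hwy := hcF y (hnT y hy.1) hy1 w hwF hw1 hwy0
      have hwz := hcF z (hnT z hz.1) hz1 w hwF hw1 hwz0
      have hprod : ∀ x, v x ≠ 0 → v x ≠ c x → v x * c x = -1 := by
        intro x hx hxc
        rcases sgn (hF.1 v hv) hx with h | h <;> rcases hc x with h' | h' <;>
          rw [h, h'] at hxc ⊢ <;> simp at hxc ⊢
      have hdot : dot v w = -2 := by
        unfold dot
        rw [← Finset.sum_subset (Finset.subset_univ ({y, z} : Finset (Fin n)))]
        · rw [Finset.sum_pair hyz, hwy, hwz, hprod y hy.1 hy.2, hprod z hz.1 hz.2]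
          norm_num
        · intro i _ hi
          rw [mem_insert, mem_singleton] at hi
          push Not at hi
          by_cases hvi : v i = 0
          · rw [hvi, zero_mul]
          · have hwi : w i = 0 := by
              by_contra hwi
              have hiS : i ∈ S := hwS ▸ mem_supp.mpr hwi
              rw [hS, mem_insert, mem_insert, mem_insert] at hiS
              rcases hiS with h | h | h | h
              · exact hvi (h ▸ h1')
              · exact hi.1 h
              · exact hi.2 h
              · exact hvi (hRn i h).1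
            rw [hwi, mul_zero]
      refine hF.2 v hv w hwF (fun h => ?_) hdot
      rw [← h] at hwy
      exact hy.2 hwy

end SJ
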