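import Pool.Agent.Helper86.SJ.Defs

/-! SJ, package UP (MP_66bcf1_co). -/

open Finset

namespace SJ

namespace H67U

theorem mem_supp {n : ℕ} {v : Fin n → ℤ} {i : Fin n} : i ∈ supp v ↔ v i ≠ 0 := by
  unfold supp
  rw [mem_filter]
  exact ⟨fun h => h.2, fun h => ⟨mem_univ _, h⟩⟩

theorem sgn {n k : ℕ} {v : Fin n → ℤ} (hv : IsV n k v) {i : Fin n} (hi : v i ≠ 0) :
    v i = 1 ∨ v i = -1 := by
  rcases hv.1 i with h | h | h
  · exact Or.inr h
  · exact absurd h hi
  · exact Or.inl h

end H67U

open H67U in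
theorem up : UPStm := by
  classical
  intro n k F hk hF x y hxy v hv hcl μ hμ
  have hDDx : x ∉ DD F x y := by
    intro h
    unfold DD at h
    exact hcl.1 ((mem_filter.mp h).2.2.2 v hv hcl)
  have hDDy : y ∉ DD F x y := by
    intro h
    unfold DD at h
    exact hcl.2.1 ((mem_filter.mp h).2.2.2 v hv hcl)
  have hDD0 : ∀ w ∈ F, ClashV F w x y → ∀ f ∈ DD F x y, w f = 0 := by
    intro w hw hwc f hf
    unfold DD at hf
    exact (mem_filter.mp hf).2.2.2 w hw hwc
  set M : Finset (Fin n) := univ \ ({x, y} ∪ DD F x y) with hM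
  have hMc : #M = μ := by
    have e1 : #(({x, y} : Finset (Fin n)) ∪ DD F x y) = 2 + #(DD F x y) := by
      rw [card_union_of_disjoint, card_pair hxy]
      rw [Finset.disjoint_left]
      intro i hi
      rw [mem_insert, mem_singleton] at hi
      rcases hi with h | h
      · rw [h]; exact hDDx
      · rw [h]; exact hDDy
    rw [hM, card_sdiff_of_subset (subset_univ _), card_univ, Fintype.card_fin, e1]
    omega
  have hxM : x ∉ M := by
    rw [hM, mem_sdiff, mem_union, mem_insert]; tauto
  have hyM : y ∉ M := by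
    rw [hM, mem_sdiff, mem_union, mem_insert, mem_singleton]; tauto
  -- the clashing members
  have hsub : ∀ w ∈ F, ClashV F w x y → supp w \ {x, y} ⊆ M := by
    intro w hw hwc i hi
    rw [mem_sdiff] at hi
    rw [hM, mem_sdiff, mem_union]
    refine ⟨mem_univ _, ?_⟩
    rintro (h | h)
    · exact hi.2 h
    · exact mem_supp.mp hi.1 (hDD0 w hw hwc i h)
  have hpair : ∀ w ∈ F, ClashV F w x y → {x, y} ⊆ supp w := by
    intro w _ hwc i hi
    rw [mem_insert, mem_singleton] at hi
    rcases hi with h | h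
    · rw [h]; exact mem_supp.mpr hwc.1
    · rw [h]; exact mem_supp.mpr hwc.2.1
  have hcardQ : ∀ w ∈ F, ClashV F w x y → #(supp w \ {x, y}) = k - 2 := by
    intro w hw hwc
    rw [card_sdiff_of_subset (hpair w hw hwc), (hF.1 w hw).2, card_pair hxy]
  have hinj : ∀ S S' : Finset (Fin n), {x, y} ⊆ S → {x, y} ⊆ S' → S \ {x, y} = S' \ {x, y} →
      S = S' := by
    intro S S' h h' he
    rw [← sdiff_union_of_subset h, ← sdiff_union_of_subset h', he]
  refine ⟨?_, ?_⟩
  · -- the patterns
    let cPab : ℤ × ℤ → Finset (Finset (Fin n)) := fun p =>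
      (F.filter (fun w => ClashV F w x y ∧ w x = p.1 ∧ w y = p.2)).image supp
    have hcov : cP F x y ⊆ ((({1, -1} : Finset ℤ) ×ˢ ({1, -1} : Finset ℤ))).biUnion cPab := by
      intro S hS
      unfold cP at hS
      obtain ⟨w, hw, rfl⟩ := mem_image.mp hS
      obtain ⟨hwF, hwc⟩ := mem_filter.mp hw
      rw [mem_biUnion]
      refine ⟨(w x, w y), ?_, mem_image_of_mem _ (mem_filter.mpr ⟨hwF, hwc, rfl, rfl⟩)⟩
      rw [mem_product]
      refine ⟨?_, ?_⟩
      · rcases sgn (hF.1 w hwF) hwc.1 with h | h <;> simp [h]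
      · rcases sgn (hF.1 w hwF) hwc.2.1 with h | h <;> simp [h]
    have hone : ∀ p ∈ (({1, -1} : Finset ℤ) ×ˢ ({1, -1} : Finset ℤ)),
        #(cPab p) ≤ (k - 2) * (μ - 1).choose (k - 3) := by
      intro p _
      by_cases hne : (cPab p).Nonempty
      · obtain ⟨S₀, hS₀⟩ := hne
        obtain ⟨w₁, hw₁, -⟩ := mem_image.mp hS₀
        obtain ⟨hw₁F, hw₁c, hw₁x, hw₁y⟩ := mem_filter.mp hw₁
        obtain ⟨-, -, w₀, hw₀F, hw₀x, hw₀y⟩ := id hw₁c
        have hp1 : p.1 ≠ 0 := hw₁x ▸ hw₁c.1
        have hp2 : p.2 ≠ 0 := hw₁y ▸ hw₁c.2.1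
        rw [hw₁x] at hw₀x
        rw [hw₁y] at hw₀y
        have hw₀c : ClashV F w₀ x y := by
          refine ⟨by rw [hw₀x]; exact neg_ne_zero.mpr hp1, by rw [hw₀y]; exact neg_ne_zero.mpr hp2,
            w₁, hw₁F, ?_, ?_⟩
          · rw [hw₀x, hw₁x, neg_neg]
          · rw [hw₀y, hw₁y, neg_neg]
        set R₀ := supp w₀ \ {x, y} with hR₀
        have hR₀M : R₀ ⊆ M := hsub w₀ hw₀F hw₀c
        have hR₀c : #R₀ = k - 2 := hcardQ w₀ hw₀F hw₀c
        -- the family of the traces
        let G : Finset (Finset (Fin n)) :=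
          R₀.biUnion (fun z => (powersetCard (k - 3) (M.erase z)).image (insert z))
        have hG : #G ≤ (k - 2) * (μ - 1).choose (k - 3) := by
          rw [← hR₀c]
          refine card_biUnion_le_card_mul _ _ _ fun z hz => ?_
          refine card_image_le.trans ?_
          rw [card_powersetCard, card_erase_of_mem (hR₀M hz), hMc]
        refine le_trans ?_ hG
        refine card_le_card_of_injOn (fun S => S \ {x, y}) ?_ ?_
        · intro S hS
          obtain ⟨w, hw, rfl⟩ := mem_image.mp (mem_coe.mp hS)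
          obtain ⟨hwF, hwc, hwx, hwy⟩ := mem_filter.mp hw
          -- a common coordinate
          have hne : w ≠ w₀ := by
            intro h
            rw [h] at hwx
            have : p.1 = -p.1 := hwx.symm.trans hw₀x
            exact hp1 (by omega)
          have hdot := hF.2 w hwF w₀ hw₀F hne
          obtain ⟨z, hz1, hz2, hzw, hzw₀⟩ : ∃ z, z ≠ x ∧ z ≠ y ∧ w z ≠ 0 ∧ w₀ z ≠ 0 := by
            by_contra hcon
            push Not at hcon
            apply hdot
            unfold dot
            rw [← sum_subset (subset_univ ({x, y} : Finset (Fin n)))]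
            · rw [sum_pair hxy, hwx, hwy, hw₀x, hw₀y]
              have s1 : p.1 * -p.1 = -1 := by
                rcases sgn (hF.1 w hwF) hwc.1 with h | h <;> rw [← hwx, h] <;> norm_num
              have s2 : p.2 * -p.2 = -1 := by
                rcases sgn (hF.1 w hwF) hwc.2.1 with h | h <;> rw [← hwy, h] <;> norm_num
              rw [s1, s2]
              norm_num
            · intro i _ hi
              rw [mem_insert, mem_singleton] at hi
              push Not at hi
              by_cases h : w i = 0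
              · rw [h, zero_mul]
              · rw [hcon i hi.1 hi.2 h, mul_zero]
          have hzp : z ∉ ({x, y} : Finset (Fin n)) := by
            rw [mem_insert, mem_singleton]
            push Not
            exact ⟨hz1, hz2⟩
          have hzQ : z ∈ supp w \ {x, y} := mem_sdiff.mpr ⟨mem_supp.mpr hzw, hzp⟩
          rw [mem_coe, mem_biUnion]
          refine ⟨z, mem_sdiff.mpr ⟨mem_supp.mpr hzw₀, hzp⟩, ?_⟩
          rw [mem_image]
          refine ⟨(supp w \ {x, y}).erase z, ?_, insert_erase hzQ⟩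
          rw [mem_powersetCard]
          refine ⟨erase_subset_erase z (hsub w hwF hwc), ?_⟩
          rw [card_erase_of_mem hzQ, hcardQ w hwF hwc]
          omega
        · intro S hS S' hS' h
          obtain ⟨w, hw, rfl⟩ := mem_image.mp (mem_coe.mp hS)
          obtain ⟨w', hw', rfl⟩ := mem_image.mp (mem_coe.mp hS')
          obtain ⟨hwF, hwc, -, -⟩ := mem_filter.mp hw
          obtain ⟨hwF', hwc', -, -⟩ := mem_filter.mp hw'
          exact hinj _ _ (hpair w hwF hwc) (hpair w' hwF' hwc') h
      · rw [not_nonempty_iff_eq_empty.mp hne, card_empty]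
        exact Nat.zero_le _
    refine (card_le_card hcov).trans ?_
    refine (card_biUnion_le_card_mul _ _ _ hone).trans ?_
    exact Nat.mul_le_mul_right _ (by decide)
  · rw [← hMc, ← card_powersetCard]
    refine card_le_card_of_injOn (fun S => S \ {x, y}) ?_ ?_
    · intro S hS
      unfold cP at hS
      obtain ⟨w, hw, rfl⟩ := mem_image.mp (mem_coe.mp hS)
      obtain ⟨hwF, hwc⟩ := mem_filter.mp hw
      exact mem_coe.mpr (mem_powersetCard.mpr ⟨hsub w hwF hwc, hcardQ w hwF hwc⟩)
    · intro S hS S' hS' h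
      unfold cP at hS hS'
      obtain ⟨w, hw, rfl⟩ := mem_image.mp (mem_coe.mp hS)
      obtain ⟨w', hw', rfl⟩ := mem_image.mp (mem_coe.mp hS')
      obtain ⟨hwF, hwc⟩ := mem_filter.mp hw
      obtain ⟨hwF', hwc'⟩ := mem_filter.mp hw'
      exact hinj _ _ (hpair w hwF hwc) (hpair w' hwF' hwc') h

end SJ
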